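import Mathlib

set_option autoImplicit false

/-!
For every Noetherian local ring `R` and every `N`, the supremum of
`e(I) / ((d+1)! ℓ(R⟦T⟧/I))` over the ideals `I` of `R⟦T⟧` that are primary to the maximal ideal and
contained in its `N`-th power equals the Lech–Mumford constant of `R⟦T⟧`.

Proof: let `φ` be the endomorphism `T ↦ T ^ n` of `S = R⟦T⟧`. It makes `S` a free module of rank `n`
over itself, so that `ℓ(S/φ(I)S) = n ℓ(S/I)` and `e(φ(I)S) = n e(I)`. The ideal
`K = φ(I)S ∩ 𝔫 ^ N` has `e(K) ≥ n e(I)` and `ℓ(S/K) ≤ n ℓ(S/I) + ℓ(S/𝔫 ^ N)`; let `n → ∞`.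
-/

namespace Pool.Agent.Results.MP_57f84f_al.DeepIdeals

open PowerSeries Filter IsLocalRing
open scoped ENNReal Topology

universe u

/-! ### Definitions of the problem -/

/-- The Krull dimension of a ring, as a natural number. -/
noncomputable def dimN (S : Type u) [CommRing S] : ℕ := ((ringKrullDim S).unbotD 0).toNat

/-- The length `ℓ(S/I)`. -/
noncomputable def colength {S : Type u} [CommRing S] (I : Ideal S) : ℕ∞ :=
  Module.length S (S ⧸ I)

/-- The Hilbert–Samuel multiplicity `e(I)`: the limit (superior) of `e! ℓ(S/I^k) / k^e`, `e = dim S`. -/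
noncomputable def mult {S : Type u} [CommRing S] (I : Ideal S) : ℝ≥0∞ :=
  limsup (fun k : ℕ => ((dimN S).factorial : ℝ≥0∞) * (colength (I ^ k) : ℝ≥0∞) / (k : ℝ≥0∞) ^ dimN S) atTop

/-- The Lech–Mumford constant of a local ring `S`. -/
noncomputable def LM (S : Type u) [CommRing S] [IsLocalRing S] : ℝ≥0∞ :=
  ⨆ (I : Ideal S) (_ : I.radical = maximalIdeal S),
    mult I / (((dimN S).factorial : ℝ≥0∞) * (colength I : ℝ≥0∞))

/-- The constant `L_N(R)`. -/
noncomputable def L (R : Type u) [CommRing R] [IsLocalRing R] (N : ℕ) : ℝ≥0∞ :=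
  ⨆ (I : Ideal R⟦X⟧) (_ : I.radical = maximalIdeal R⟦X⟧) (_ : I ≤ maximalIdeal R⟦X⟧ ^ N),
    mult I / (((dimN R + 1).factorial : ℝ≥0∞) * (colength I : ℝ≥0∞))

/-! ### Length and restriction of scalars -/

section Length

lemma isSimple_restrict {A B : Type u} [CommRing A] [CommRing B] [IsLocalRing B] [Algebra A B]
    (h : ∀ y : B, ∃ a : A, y - algebraMap A B a ∈ maximalIdeal B)
    {M : Type u} [AddCommGroup M] [Module B M] [Module A M] [IsScalarTower A B M]
    (hM : IsSimpleModule B M) : IsSimpleModule A M := by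
  rw [isSimpleModule_iff_toSpanSingleton_surjective] at hM ⊢
  refine ⟨hM.1, fun x hx => ?_⟩
  have hz : ∀ z ∈ maximalIdeal B, z • x = 0 := by
    intro z hz
    by_contra hne
    obtain ⟨b, hb⟩ := hM.2 (z • x) hne x
    have hb' : b • z • x = x := hb
    have h1 : (1 - b * z) • x = 0 := by
      rw [sub_smul, one_smul, mul_smul, hb', sub_self]
    have hu : IsUnit (1 - b * z) := by
      by_contra hnu
      have h2 : (1 - b * z) ∈ maximalIdeal B := (mem_maximalIdeal _).2 hnu
      have h3 : (1 : B) ∈ maximalIdeal B := by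
        have := Ideal.add_mem _ h2 (Ideal.mul_mem_left _ b hz)
        rwa [sub_add_cancel] at this
      exact (Ideal.ne_top_iff_one _).1 (maximalIdeal.isMaximal B).ne_top h3
    obtain ⟨w, hw⟩ := hu
    apply hx
    have := congrArg (fun t => (↑w⁻¹ : B) • t) h1
    simpa [← hw, smul_smul] using this
  intro y
  obtain ⟨b, hb⟩ := hM.2 x hx y
  obtain ⟨a, ha⟩ := h b
  refine ⟨a, ?_⟩
  have h1 := hz _ ha
  rw [sub_smul, sub_eq_zero] at h1
  have hb' : b • x = y := hb
  show a • x = y
  rw [← hb', h1, algebraMap_smul]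

lemma length_restrict {A B : Type u} [CommRing A] [CommRing B] [IsLocalRing B] [Algebra A B]
    (h : ∀ y : B, ∃ a : A, y - algebraMap A B a ∈ maximalIdeal B)
    {M : Type u} [AddCommGroup M] [Module B M] (hM : IsFiniteLength B M) :
    ∀ [Module A M] [IsScalarTower A B M], Module.length A M = Module.length B M := by
  induction hM with
  | of_subsingleton =>
    intro _ _
    rw [Module.length_eq_zero, Module.length_eq_zero]
  | @of_simple_quotient M _ _ N hs hN ih =>
    intro _ _
    rw [Module.length_eq_add_of_exact N.subtype N.mkQ N.subtype_injective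
      (Submodule.mkQ_surjective _) (LinearMap.exact_subtype_mkQ N)]
    rw [Module.length_eq_add_of_exact (N.subtype.restrictScalars A) (N.mkQ.restrictScalars A)
      N.subtype_injective (Submodule.mkQ_surjective _) (LinearMap.exact_subtype_mkQ N)]
    have h1 : IsSimpleModule A (M ⧸ N) := isSimple_restrict h hs
    have e1 : Module.length A (M ⧸ N) = 1 := Module.length_eq_one A (M ⧸ N)
    have e2 : Module.length B (M ⧸ N) = 1 := Module.length_eq_one B (M ⧸ N)
    rw [e1, e2]
    congr 1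
    exact ih

end Length

/-! ### Colength of an extended ideal -/

section Free

lemma mem_map_iff {A B : Type u} [CommRing A] [CommRing B] [Algebra A B] {n : ℕ}
    (e : B ≃ₗ[A] (Fin n → A)) (J : Ideal A) (y : B) :
    y ∈ J.map (algebraMap A B) ↔ ∀ i, e y i ∈ J := by
  constructor
  · intro hy
    have hy' : y ∈ (J • ⊤ : Submodule A B) := by
      rw [Ideal.smul_top_eq_map]
      exact hy
    refine Submodule.smul_induction_on hy' ?_ ?_
    · intro r hr m _ i
      rw [map_smul]
      exact Ideal.mul_mem_right _ _ hr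
    · intro a b ha hb i
      rw [map_add]
      exact Ideal.add_mem _ (ha i) (hb i)
  · intro h
    have h1 : y = ∑ i, e y i • e.symm (Pi.single i 1) := by
      apply e.injective
      rw [map_sum]
      simp only [map_smul, LinearEquiv.apply_symm_apply]
      ext j
      simp [Finset.sum_apply, Pi.single_apply]
    rw [h1]
    refine Ideal.sum_mem _ fun i _ => ?_
    rw [Algebra.smul_def]
    exact Ideal.mul_mem_right _ _ (Ideal.mem_map_of_mem _ (h i))

lemma length_quot_map {A B : Type u} [CommRing A] [CommRing B] [Algebra A B] {n : ℕ}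
    (e : B ≃ₗ[A] (Fin n → A)) (J : Ideal A) :
    Module.length A (B ⧸ J.map (algebraMap A B)) = n * Module.length A (A ⧸ J) := by
  let g : B →ₗ[A] (Fin n → A ⧸ J) :=
    LinearMap.pi fun i => (Submodule.mkQ J).comp ((LinearMap.proj i).comp e.toLinearMap)
  have hg : ∀ y i, g y i = Ideal.Quotient.mk J (e y i) := fun y i => rfl
  have hsurj : Function.Surjective g := by
    intro v
    choose w hw using fun i => Ideal.Quotient.mk_surjective (v i)
    refine ⟨e.symm w, ?_⟩
    ext i
    rw [hg, LinearEquiv.apply_symm_apply, hw]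
  have hker : LinearMap.ker g = (J.map (algebraMap A B)).restrictScalars A := by
    ext y
    rw [LinearMap.mem_ker, Submodule.restrictScalars_mem, mem_map_iff e]
    constructor
    · intro h i
      rw [← Ideal.Quotient.eq_zero_iff_mem, ← hg, h]
      rfl
    · intro h
      ext i
      rw [hg]
      exact Ideal.Quotient.eq_zero_iff_mem.2 (h i)
  have h1 : Module.length A (B ⧸ (J.map (algebraMap A B)).restrictScalars A) =
      n * Module.length A (A ⧸ J) := by
    rw [← hker, (g.quotKerEquivOfSurjective hsurj).length_eq, Module.length_pi]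
    simp
  rw [← h1]
  exact ((Submodule.Quotient.restrictScalarsEquiv A (J.map (algebraMap A B))).length_eq).symm

/-- A free extension of rank `n` without residue field extension multiplies colengths by `n`. -/
lemma colength_map {A B : Type u} [CommRing A] [CommRing B] [IsLocalRing B] (φ : A →+* B) {n : ℕ}
    (b : Fin n → B) (hb : Function.Bijective (fun v : Fin n → A => ∑ i, φ (v i) * b i))
    (h : ∀ y : B, ∃ a : A, y - φ a ∈ maximalIdeal B) (I : Ideal A)
    (hfin : IsFiniteLength B (B ⧸ I.map φ)) :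
    colength (I.map φ) = n * colength I := by
  let _ : Algebra A B := φ.toAlgebra
  have hmap : ∀ a : A, algebraMap A B a = φ a := fun a => rfl
  let g : (Fin n → A) →ₗ[A] B :=
    { toFun := fun v => ∑ i, φ (v i) * b i
      map_add' := by
        intro v w
        rw [← Finset.sum_add_distrib]
        refine Finset.sum_congr rfl fun i _ => ?_
        rw [Pi.add_apply, map_add, add_mul]
      map_smul' := by
        intro c v
        rw [RingHom.id_apply, Algebra.smul_def c (∑ i, φ (v i) * b i), hmap, Finset.mul_sum]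
        refine Finset.sum_congr rfl fun i _ => ?_
        rw [Pi.smul_apply, smul_eq_mul, map_mul, mul_assoc] }
  let e : B ≃ₗ[A] (Fin n → A) := (LinearEquiv.ofBijective g hb).symm
  have h1 := length_quot_map e I
  have h3 := length_restrict (A := A) h hfin
  rw [colength, ← h3]
  exact h1

end Free

/-! ### Finite length of primary quotients -/

section Primary

variable {S : Type u} [CommRing S] [IsLocalRing S] [IsNoetherianRing S]

lemma isFiniteLength_quot {I : Ideal S} (h : I.radical = maximalIdeal S) :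
    IsFiniteLength S (S ⧸ I) := by
  have hle : I ≤ maximalIdeal S := h ▸ Ideal.le_radical
  have hne : I ≠ ⊤ := fun h' => (maximalIdeal.isMaximal S).ne_top (top_le_iff.1 (h' ▸ hle))
  have : Nontrivial (S ⧸ I) := Ideal.Quotient.nontrivial_iff.2 hne
  have : IsLocalRing (S ⧸ I) :=
    IsLocalRing.of_surjective' (Ideal.Quotient.mk I) Ideal.Quotient.mk_surjective
  have hart : IsArtinianRing (S ⧸ I) := by
    rw [isArtinianRing_iff_isNilpotent_maximalIdeal]
    obtain ⟨t, ht⟩ := Ideal.exists_radical_pow_le_of_fg I (IsNoetherian.noetherian _)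
    refine ⟨t, ?_⟩
    rw [h] at ht
    have h1 : maximalIdeal (S ⧸ I) = (maximalIdeal S).map (Ideal.Quotient.mk I) := by
      apply le_antisymm
      · intro y hy
        obtain ⟨x, rfl⟩ := Ideal.Quotient.mk_surjective y
        refine Ideal.mem_map_of_mem _ ?_
        rw [mem_maximalIdeal] at hy ⊢
        exact fun hx => hy (hx.map _)
      · rw [Ideal.map_le_iff_le_comap]
        intro x hx
        rw [Ideal.mem_comap, mem_maximalIdeal]
        intro hu
        obtain ⟨z, hz⟩ := hu.exists_right_inv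
        obtain ⟨w, rfl⟩ := Ideal.Quotient.mk_surjective z
        rw [← map_mul, ← map_one (Ideal.Quotient.mk I), Ideal.Quotient.eq] at hz
        have h2 : (1 : S) ∈ maximalIdeal S := by
          have h3 := Ideal.sub_mem _ (Ideal.mul_mem_right w _ hx) (hle hz)
          rwa [sub_sub_cancel] at h3
        exact (Ideal.ne_top_iff_one _).1 (maximalIdeal.isMaximal S).ne_top h2
    rw [h1, ← Ideal.map_pow, Ideal.zero_eq_bot, Ideal.map_eq_bot_iff_le_ker, Ideal.mk_ker]
    exact ht
  have h2 : IsArtinian S (S ⧸ I) :=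
    isArtinian_of_surjective_algebraMap (Ideal.Quotient.mk_surjective (I := I))
  rw [← Module.length_ne_top_iff]
  exact Module.length_ne_top

lemma colength_ne_top {I : Ideal S} (h : I.radical = maximalIdeal S) : colength I ≠ ⊤ := by
  rw [colength, Module.length_ne_top_iff]
  exact isFiniteLength_quot h

omit [IsNoetherianRing S] in
lemma colength_ne_zero {I : Ideal S} (h : I.radical = maximalIdeal S) : colength I ≠ 0 := by
  have hle : I ≤ maximalIdeal S := h ▸ Ideal.le_radical
  have hne : I ≠ ⊤ := fun h' => (maximalIdeal.isMaximal S).ne_top (top_le_iff.1 (h' ▸ hle))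
  have : Nontrivial (S ⧸ I) := Ideal.Quotient.nontrivial_iff.2 hne
  exact Module.length_pos.ne'

omit [IsLocalRing S] [IsNoetherianRing S] in
lemma colength_mono {I J : Ideal S} (h : I ≤ J) : colength J ≤ colength I := by
  have hs : Function.Surjective (Submodule.factor h) := Submodule.factor_surjective h
  exact Module.length_le_of_surjective _ hs

omit [IsLocalRing S] [IsNoetherianRing S] in
lemma colength_inf_le (I J : Ideal S) : colength (I ⊓ J) ≤ colength I + colength J := by
  let f : S →ₗ[S] (S ⧸ I) × (S ⧸ J) := (Submodule.mkQ I).prod (Submodule.mkQ J)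
  have hker : LinearMap.ker f = I ⊓ J := by
    rw [LinearMap.ker_prod, Submodule.ker_mkQ, Submodule.ker_mkQ]
  have h1 : colength (I ⊓ J) = Module.length S (LinearMap.range f) := by
    rw [colength, ← hker]
    exact f.quotKerEquivRange.length_eq
  rw [h1, colength, colength, ← Module.length_prod]
  exact Module.length_le_of_injective _ (LinearMap.range f).subtype_injective

omit [IsLocalRing S] [IsNoetherianRing S] in
lemma mult_mono {I J : Ideal S} (h : I ≤ J) : mult J ≤ mult I := by
  refine limsup_le_limsup (Eventually.of_forall fun k => ?_)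
  refine ENNReal.div_le_div_right (mul_le_mul_right ?_ _) _
  exact_mod_cast colength_mono (Ideal.pow_right_mono h k)

end Primary

/-! ### The endomorphism `T ↦ T ^ n` -/

section Expand

variable {R : Type u} [CommRing R]

lemma coeff_sum_expand (n : ℕ) (hn : n ≠ 0) (v : Fin n → R⟦X⟧) (m : ℕ) (j : Fin n) :
    coeff (n * m + j) (∑ i, expand n hn (v i) * X ^ (i : ℕ)) = coeff m (v j) := by
  rw [map_sum, Finset.sum_eq_single j]
  · rw [coeff_mul_X_pow, coeff_expand_mul]
  · intro i _ hij
    rw [coeff_mul_X_pow']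
    split_ifs with h
    · refine coeff_expand_of_not_dvd n hn _ ?_
      rintro ⟨q, hq⟩
      have h1 : n * m + (j : ℕ) = n * q + i := by omega
      have h2 : (n * m + (j : ℕ)) % n = (n * q + i) % n := by rw [h1]
      rw [Nat.mul_add_mod, Nat.mul_add_mod, Nat.mod_eq_of_lt j.2, Nat.mod_eq_of_lt i.2] at h2
      exact hij (Fin.ext h2.symm)
    · rfl
  · intro h
    exact absurd (Finset.mem_univ _) h

lemma expand_bijective (n : ℕ) (hn : n ≠ 0) :
    Function.Bijective (fun v : Fin n → R⟦X⟧ => ∑ i, expand n hn (v i) * X ^ (i : ℕ)) := by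
  constructor
  · intro v w h
    ext j m
    rw [← coeff_sum_expand n hn v m j, ← coeff_sum_expand n hn w m j]
    exact congrArg _ h
  · intro f
    refine ⟨fun j => PowerSeries.mk fun m => coeff (n * m + j) f, ?_⟩
    ext m
    have h1 : n * (m / n) + (⟨m % n, Nat.mod_lt _ (Nat.pos_of_ne_zero hn)⟩ : Fin n) = m :=
      Nat.div_add_mod m n
    have h2 := coeff_sum_expand n hn (fun j => PowerSeries.mk fun m => coeff (n * m + j) f)
      (m / n) ⟨m % n, Nat.mod_lt _ (Nat.pos_of_ne_zero hn)⟩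
    rw [h1, coeff_mk, h1] at h2
    exact h2

/-- Colength of the extension of an ideal under `T ↦ T ^ n`. -/
lemma colength_map_expand [IsLocalRing R] (n : ℕ) (hn : n ≠ 0) (I : Ideal R⟦X⟧)
    (hfin : IsFiniteLength R⟦X⟧ (R⟦X⟧ ⧸ I.map (expand n hn : R⟦X⟧ →ₐ[R] R⟦X⟧).toRingHom)) :
    colength (I.map (expand n hn : R⟦X⟧ →ₐ[R] R⟦X⟧).toRingHom) = n * colength I := by
  refine colength_map (A := R⟦X⟧) (B := R⟦X⟧) (n := n)
    (expand n hn : R⟦X⟧ →ₐ[R] R⟦X⟧).toRingHom (fun i => X ^ (i : ℕ)) ?_ ?_ I hfin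
  · exact expand_bijective n hn
  intro y
  refine ⟨C (constantCoeff y), ?_⟩
  have : (expand n hn : R⟦X⟧ →ₐ[R] R⟦X⟧).toRingHom (C (constantCoeff y)) = C (constantCoeff y) :=
    expand_C n hn _
  rw [this, mem_maximalIdeal, mem_nonunits_iff, isUnit_iff_constantCoeff]
  simp

/-- The image of the maximal ideal: `φ(I)S` is primary to the maximal ideal when `I` is. -/
lemma radical_map_expand [IsLocalRing R] (n : ℕ) (hn : n ≠ 0) {I : Ideal R⟦X⟧}
    (hI : I.radical = maximalIdeal R⟦X⟧) :
    (I.map (expand n hn : R⟦X⟧ →ₐ[R] R⟦X⟧).toRingHom).radical = maximalIdeal R⟦X⟧ := by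
  set f : R⟦X⟧ →+* R⟦X⟧ := (expand n hn : R⟦X⟧ →ₐ[R] R⟦X⟧).toRingHom with hf
  have hfC : ∀ a : R, f (C a) = C a := fun a => expand_C n hn a
  have hfX : f X = X ^ n := expand_X n hn
  have hle : I ≤ maximalIdeal R⟦X⟧ := hI ▸ Ideal.le_radical
  apply le_antisymm
  · have hmap : I.map f ≤ maximalIdeal R⟦X⟧ := by
      rw [Ideal.map_le_iff_le_comap]
      intro x hx
      have hx' := hle hx
      rw [Ideal.mem_comap]
      rw [mem_maximalIdeal, mem_nonunits_iff, isUnit_iff_constantCoeff] at hx' ⊢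
      have : constantCoeff (f x) = constantCoeff x := constantCoeff_expand n hn x
      rwa [this]
    exact (Ideal.IsPrime.radical_le_iff (maximalIdeal.isMaximal _).isPrime).2 hmap
  · intro y hy
    have hpow : ∀ z ∈ maximalIdeal R⟦X⟧, f z ∈ (I.map f).radical := by
      intro z hz
      rw [← hI] at hz
      obtain ⟨t, ht⟩ := hz
      refine ⟨t, ?_⟩
      rw [← map_pow]
      exact Ideal.mem_map_of_mem _ ht
    have hX : (X : R⟦X⟧) ∈ maximalIdeal R⟦X⟧ := by
      rw [mem_maximalIdeal, mem_nonunits_iff, isUnit_iff_constantCoeff]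
      simp
    have h1 : (X : R⟦X⟧) ∈ (I.map f).radical := by
      have h2 := hpow X hX
      rw [hfX] at h2
      exact Ideal.mem_radical_of_pow_mem h2
    have hC : C (constantCoeff y) ∈ (I.map f).radical := by
      have h2 : C (constantCoeff y) ∈ maximalIdeal R⟦X⟧ := by
        rw [mem_maximalIdeal, mem_nonunits_iff, isUnit_iff_constantCoeff] at hy ⊢
        simpa using hy
      have h3 := hpow _ h2
      rwa [hfC] at h3
    have h4 := sub_const_eq_X_mul_shift y
    have h5 : y = X * (PowerSeries.mk fun p => coeff (p + 1) y) + C (constantCoeff y) := by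
      rw [← h4]; ring
    rw [h5]
    exact Ideal.add_mem _ (Ideal.mul_mem_right _ _ h1) hC

lemma radical_pow_max {S : Type u} [CommRing S] [IsLocalRing S] {N : ℕ} (hN : N ≠ 0) :
    (maximalIdeal S ^ N).radical = maximalIdeal S := by
  rw [Ideal.radical_pow _ hN]
  exact (maximalIdeal.isMaximal S).isPrime.radical

lemma radical_pow_eq {S : Type u} [CommRing S] [IsLocalRing S] {I : Ideal S}
    (hI : I.radical = maximalIdeal S) {k : ℕ} (hk : k ≠ 0) :
    (I ^ k).radical = maximalIdeal S := by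
  rw [Ideal.radical_pow _ hk, hI]

/-- `e(φ(I)S) = n e(I)`. -/
lemma mult_map_expand [IsLocalRing R] [IsNoetherianRing R] (n : ℕ) (hn : n ≠ 0) {I : Ideal R⟦X⟧}
    (hI : I.radical = maximalIdeal R⟦X⟧) :
    mult (I.map (expand n hn : R⟦X⟧ →ₐ[R] R⟦X⟧).toRingHom) = n * mult I := by
  unfold mult
  rw [← ENNReal.limsup_const_mul_of_ne_top (ENNReal.natCast_ne_top n)]
  refine limsup_congr ?_
  filter_upwards [eventually_ne_atTop 0] with k hk
  rw [← Ideal.map_pow, colength_map_expand n hn (I ^ k)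
    (isFiniteLength_quot (radical_map_expand n hn (radical_pow_eq hI hk)))]
  rw [ENat.toENNReal_mul, ← mul_div_assoc]
  congr 1
  rw [ENat.toENNReal_coe]
  ring

end Expand

/-! ### Dimension of a power series ring -/

lemma ringKrullDim_powerSeries (R : Type u) [CommRing R] [IsLocalRing R] [IsNoetherianRing R] :
    ringKrullDim R⟦X⟧ = ringKrullDim R + 1 := by
  have hX : (X : R⟦X⟧) ∈ maximalIdeal R⟦X⟧ := by
    rw [mem_maximalIdeal, mem_nonunits_iff, isUnit_iff_constantCoeff]
    simp
  have h1 := ringKrullDim_quotient_span_singleton_succ_eq_ringKrullDim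
    (R := R⟦X⟧) (x := X) ?_ hX
  · rw [← h1]
    congr 1
    have hker : RingHom.ker (constantCoeff (R := R)) = Ideal.span {X} := by
      ext f
      rw [RingHom.mem_ker, Ideal.mem_span_singleton, X_dvd_iff]
    have hs : Function.Surjective (constantCoeff (R := R)) := fun r => ⟨C r, by simp⟩
    rw [← hker]
    exact ringKrullDim_eq_of_ringEquiv (RingHom.quotientKerEquivOfSurjective hs)
  · intro a b hab
    ext m
    have h2 : (X : R⟦X⟧) * a = X * b := hab
    rw [← coeff_succ_X_mul m a, h2, coeff_succ_X_mul]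

lemma dimN_powerSeries (R : Type u) [CommRing R] [IsLocalRing R] [IsNoetherianRing R] :
    dimN R⟦X⟧ = dimN R + 1 := by
  unfold dimN
  rw [ringKrullDim_powerSeries]
  obtain ⟨d, hd⟩ : ∃ d : ℕ, ringKrullDim R = d := by
    have h1 : ringKrullDim R ≠ ⊤ := ringKrullDim_ne_top
    have h2 : ringKrullDim R ≠ ⊥ := ringKrullDim_ne_bot
    obtain ⟨e, he⟩ := WithBot.ne_bot_iff_exists.1 h2
    rw [← he] at h1 ⊢
    have h3 : e ≠ ⊤ := fun h => h1 (by rw [h]; rfl)
    obtain ⟨d, rfl⟩ := ENat.ne_top_iff_exists.1 h3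
    exact ⟨d, rfl⟩
  rw [hd]
  rfl

/-! ### The main inequality -/

lemma key (R : Type u) [CommRing R] [IsLocalRing R] [IsNoetherianRing R] (N : ℕ)
    {I : Ideal R⟦X⟧} (hI : I.radical = maximalIdeal R⟦X⟧) :
    mult I / (((dimN R⟦X⟧).factorial : ℝ≥0∞) * (colength I : ℝ≥0∞)) ≤ L R N := by
  set F : ℝ≥0∞ := ((dimN R⟦X⟧).factorial : ℝ≥0∞) with hF
  set c : ℝ≥0∞ := (colength (maximalIdeal R⟦X⟧ ^ (N + 1)) : ℝ≥0∞) with hc
  have hF0 : F ≠ 0 := by
    rw [hF]
    exact_mod_cast (Nat.factorial_pos _).ne'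
  have hFt : F ≠ ⊤ := ENNReal.natCast_ne_top _
  have hct : c ≠ ⊤ := by
    rw [hc]
    exact ENat.toENNReal_ne_top.2 (colength_ne_top (radical_pow_max N.succ_ne_zero))
  have hl0 : (colength I : ℝ≥0∞) ≠ 0 := by
    rw [Ne, ENat.toENNReal_eq_zero]
    exact colength_ne_zero hI
  have hstep : ∀ n : ℕ, mult I / (F * ((colength I : ℝ≥0∞) + c / ((n + 1 : ℕ) : ℝ≥0∞))) ≤ L R N := by
    intro n
    set In := I.map (expand (n + 1) n.succ_ne_zero : R⟦X⟧ →ₐ[R] R⟦X⟧).toRingHom with hIn
    have hr := radical_map_expand (n + 1) n.succ_ne_zero hI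
    have hK : (In ⊓ maximalIdeal R⟦X⟧ ^ (N + 1)).radical = maximalIdeal R⟦X⟧ := by
      rw [Ideal.radical_inf, hr, radical_pow_max N.succ_ne_zero, inf_idem]
    have hK2 : In ⊓ maximalIdeal R⟦X⟧ ^ (N + 1) ≤ maximalIdeal R⟦X⟧ ^ N :=
      inf_le_right.trans (Ideal.pow_le_pow_right (Nat.le_succ N))
    have h1 : mult (In ⊓ maximalIdeal R⟦X⟧ ^ (N + 1)) /
        (F * (colength (In ⊓ maximalIdeal R⟦X⟧ ^ (N + 1)) : ℝ≥0∞)) ≤ L R N := by
      unfold L
      rw [← dimN_powerSeries]
      exact le_iSup_of_le _ (le_iSup_of_le hK (le_iSup_of_le hK2 le_rfl))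
    refine le_trans ?_ h1
    have h2 : ((n + 1 : ℕ) : ℝ≥0∞) * mult I ≤ mult (In ⊓ maximalIdeal R⟦X⟧ ^ (N + 1)) := by
      rw [← mult_map_expand (n + 1) n.succ_ne_zero hI]
      exact mult_mono inf_le_left
    have h3 : (colength (In ⊓ maximalIdeal R⟦X⟧ ^ (N + 1)) : ℝ≥0∞) ≤
        ((n + 1 : ℕ) : ℝ≥0∞) * (colength I : ℝ≥0∞) + c := by
      have h4 := colength_inf_le In (maximalIdeal R⟦X⟧ ^ (N + 1))
      rw [hIn, colength_map_expand (n + 1) n.succ_ne_zero I (isFiniteLength_quot hr), ← hIn] at h4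
      have h5 := ENat.toENNReal_le.2 h4
      rw [ENat.toENNReal_add, ENat.toENNReal_mul, ENat.toENNReal_coe] at h5
      exact h5
    have hn0 : ((n + 1 : ℕ) : ℝ≥0∞) ≠ 0 := by exact_mod_cast n.succ_ne_zero
    have hnt : ((n + 1 : ℕ) : ℝ≥0∞) ≠ ⊤ := ENNReal.natCast_ne_top _
    have h6 : F * (((n + 1 : ℕ) : ℝ≥0∞) * (colength I : ℝ≥0∞) + c) =
        ((n + 1 : ℕ) : ℝ≥0∞) * (F * ((colength I : ℝ≥0∞) + c / ((n + 1 : ℕ) : ℝ≥0∞))) := by
      have h7 : ((n + 1 : ℕ) : ℝ≥0∞) * (c / ((n + 1 : ℕ) : ℝ≥0∞)) = c :=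
        ENNReal.mul_div_cancel hn0 hnt
      calc F * (((n + 1 : ℕ) : ℝ≥0∞) * (colength I : ℝ≥0∞) + c)
          = F * (((n + 1 : ℕ) : ℝ≥0∞) * (colength I : ℝ≥0∞) +
              ((n + 1 : ℕ) : ℝ≥0∞) * (c / ((n + 1 : ℕ) : ℝ≥0∞))) := by rw [h7]
        _ = _ := by ring
    calc mult I / (F * ((colength I : ℝ≥0∞) + c / ((n + 1 : ℕ) : ℝ≥0∞)))
        = (((n + 1 : ℕ) : ℝ≥0∞) * mult I) /
          (((n + 1 : ℕ) : ℝ≥0∞) * (F * ((colength I : ℝ≥0∞) + c / ((n + 1 : ℕ) : ℝ≥0∞)))) := by
          rw [ENNReal.mul_div_mul_left _ _ hn0 hnt]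
      _ = (((n + 1 : ℕ) : ℝ≥0∞) * mult I) /
          (F * (((n + 1 : ℕ) : ℝ≥0∞) * (colength I : ℝ≥0∞) + c)) := by rw [h6]
      _ ≤ _ := ENNReal.div_le_div h2 (mul_le_mul_right h3 F)
  have hlim : Tendsto (fun n : ℕ => mult I /
      (F * ((colength I : ℝ≥0∞) + c / ((n + 1 : ℕ) : ℝ≥0∞)))) atTop
      (𝓝 (mult I / (F * ((colength I : ℝ≥0∞) + 0)))) := by
    refine ENNReal.Tendsto.const_div ?_ (Or.inl ?_)
    · refine ENNReal.Tendsto.const_mul ?_ (Or.inr hFt)
      refine Tendsto.const_add _ ?_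
      have h8 : Tendsto (fun n : ℕ => c / (n : ℝ≥0∞)) atTop (𝓝 0) := by
        have := ENNReal.Tendsto.const_div (a := c) ENNReal.tendsto_nat_nhds_top (Or.inr hct)
        simpa using this
      exact h8.comp (tendsto_add_atTop_nat 1)
    · rw [add_zero]
      exact ENNReal.mul_ne_top hFt (ENat.toENNReal_ne_top.2 (colength_ne_top hI))
  rw [add_zero] at hlim
  exact le_of_tendsto' hlim hstep

/-- For every Noetherian local ring `R`, `L_N(R) = LM(R⟦T⟧)` for every `N`; in particular
`LM(R⟦T⟧) = lim L_N(R)`. -/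
theorem result (R : Type u) [CommRing R] [IsLocalRing R] [IsNoetherianRing R] :
    (∀ N : ℕ, L R N = LM R⟦X⟧) ∧ Tendsto (L R) atTop (𝓝 (LM R⟦X⟧)) := by
  have h : ∀ N : ℕ, L R N = LM R⟦X⟧ := by
    intro N
    apply le_antisymm
    · unfold L LM
      rw [← dimN_powerSeries]
      refine iSup₂_mono fun I hI => iSup_le fun _ => le_rfl
    · exact iSup₂_le fun I hI => key R N hI
  refine ⟨h, ?_⟩
  rw [show L R = fun _ => LM R⟦X⟧ from funext h]
  exact tendsto_const_nhds

end Pool.Agent.Results.MP_57f84f_al.DeepIdeals
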